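import Pool.Agent.Helper75.PX.Stmts5

/-! Row TAU: the reduced trace in degree three. -/

set_option autoImplicit false

namespace Pool.Agent.Helper75.PX

open Module

universe u

theorem tau_map {K X Ω : Type*} [Field K] [Ring X] [Algebra K X] [Field Ω] [Algebra K Ω]
    {ι : Type*} [Fintype ι] [DecidableEq ι] (Ψ : X →ₐ[K] Matrix ι ι Ω) {κ : Type*} (v : κ → X)
    (x : X) (hx : x ∈ Submodule.span K (Set.range v)) :
    Ψ x ∈ Submodule.span Ω (Set.range (Ψ ∘ v)) := by
  induction hx using Submodule.span_induction with
  | mem x hx =>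
    obtain ⟨k, rfl⟩ := hx
    exact Submodule.subset_span ⟨k, rfl⟩
  | zero => simp
  | add x y _ _ hx hy => rw [map_add]; exact Submodule.add_mem _ hx hy
  | smul a x _ hx =>
    rw [map_smul, ← IsScalarTower.algebraMap_smul Ω a (Ψ x)]
    exact Submodule.smul_mem _ _ hx

theorem tau_ind {K X Ω : Type*} [Field K] [Ring X] [Algebra K X] [Field Ω] [Algebra K Ω]
    {ι : Type*} [Fintype ι] [DecidableEq ι] (Ψ : X →ₐ[K] Matrix ι ι Ω)
    (hspan : Submodule.span Ω (Set.range Ψ) = ⊤) (hcard : 0 < Fintype.card ι)
    (hfr : finrank K X = Fintype.card ι ^ 2) {κ : Type*} (v : κ → X)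
    (hv : LinearIndependent K v) : LinearIndependent Ω (Ψ ∘ v) := by
  classical
  have hpos : 0 < finrank K X := by rw [hfr]; positivity
  have : FiniteDimensional K X := Module.finite_of_finrank_pos hpos
  let b := Basis.extend hv.linearIndepOn_id
  let I := hv.linearIndepOn_id.extend (Set.subset_univ (Set.range v))
  have hfin : Finite I := Module.Finite.finite_basis b
  have hft : Fintype I := Fintype.ofFinite _
  have h1 : ⊤ ≤ Submodule.span Ω (Set.range (Ψ ∘ b)) := by
    rw [← hspan]
    refine Submodule.span_le.2 ?_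
    rintro _ ⟨x, rfl⟩
    exact tau_map Ψ b x (by rw [b.span_eq]; trivial)
  have h2 : Fintype.card I = finrank Ω (Matrix ι ι Ω) := by
    rw [← finrank_eq_card_basis b, hfr, finrank_matrix]
    simp [sq]
  have h3 := linearIndependent_of_top_le_span_of_card_eq_finrank h1 h2
  let j : κ → I := fun k => ⟨v k, hv.linearIndepOn_id.subset_extend _ (Set.mem_range_self k)⟩
  have hj : Function.Injective j := fun k l h => hv.injective (congrArg Subtype.val h)
  have h4 := h3.comp j hj
  have h5 : (Ψ ∘ b) ∘ j = Ψ ∘ v := by
    funext k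
    simp [b, j]
  rwa [h5] at h4

theorem st_TAU (h1 : ST_TRR.{u}) (_h2 : ST_SIMP.{u}) : ST_TAU.{u} := by
  classical
  intro K D _ _ _ _ hfr
  obtain ⟨Ψ, hspan, htr⟩ := h1 K D 3 (by norm_num) (by rw [hfr]; norm_num)
  have inj : Function.Injective (algebraMap K (AlgebraicClosure K)) :=
    (algebraMap K (AlgebraicClosure K)).injective
  choose t ht using htr
  let τ : D →ₗ[K] K :=
    { toFun := t
      map_add' := fun x y => inj (by rw [← ht, map_add, Matrix.trace_add, ht, ht, map_add])
      map_smul' := fun k x => inj (by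
        rw [← ht, map_smul, Matrix.trace_smul, ht, RingHom.id_apply, smul_eq_mul, map_mul,
          Algebra.smul_def]) }
  have hτ : ∀ x, Matrix.trace (Ψ x) = algebraMap K (AlgebraicClosure K) (τ x) := ht
  refine ⟨τ, ?_, ?_⟩
  · by_contra hcon
    push Not at hcon
    have h3 : Submodule.span (AlgebraicClosure K) (Set.range Ψ) ≤
        LinearMap.ker (Matrix.traceLinearMap (Fin 3) (AlgebraicClosure K)
          (AlgebraicClosure K)) := by
      rw [Submodule.span_le]
      rintro _ ⟨x, rfl⟩
      rw [SetLike.mem_coe, LinearMap.mem_ker, Matrix.traceLinearMap_apply, hτ, hcon, map_zero]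
    rw [hspan] at h3
    have h4 : (Matrix.diagonal (fun i : Fin 3 => if i = 0 then (1 : AlgebraicClosure K) else 0)) ∈
        LinearMap.ker (Matrix.traceLinearMap (Fin 3) (AlgebraicClosure K)
          (AlgebraicClosure K)) := h3 trivial
    rw [LinearMap.mem_ker, Matrix.traceLinearMap_apply, Matrix.trace_diagonal] at h4
    simp at h4
  · intro v hv
    have hind := linearIndependent_pow (K := K) v
    have h3 := tau_ind Ψ hspan (by simp) (by rw [hfr]; simp) _ hind
    rw [hv] at h3
    set P := (minpoly K v).map (algebraMap K (AlgebraicClosure K)) with hP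
    have hint : IsIntegral K v := by
      have hpos : 0 < finrank K D := by rw [hfr]; norm_num
      have : FiniteDimensional K D := Module.finite_of_finrank_pos hpos
      exact Algebra.IsIntegral.isIntegral v
    have hmon : (minpoly K v).Monic := minpoly.monic hint
    have hPm : P.Monic := hmon.map _
    have hPd : P.natDegree = 3 := by rw [hP, hmon.natDegree_map, hv]
    set χ := (Ψ v).charpoly with hχ
    have hχm : χ.Monic := Matrix.charpoly_monic _
    have hχd : χ.natDegree = 3 := by
      rw [hχ, Matrix.charpoly_natDegree_eq_dim, Fintype.card_fin]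
    have hPz : Polynomial.aeval (Ψ v) P = 0 := by
      rw [hP, Polynomial.aeval_map_algebraMap, Polynomial.aeval_algHom_apply, minpoly.aeval,
        map_zero]
    have hχz : Polynomial.aeval (Ψ v) χ = 0 := Matrix.aeval_self_charpoly _
    set R := P - χ with hR
    have hRz : Polynomial.aeval (Ψ v) R = 0 := by rw [hR, map_sub, hPz, hχz, sub_zero]
    have hRd : R.natDegree < 3 := by
      by_cases hR0 : R = 0
      · rw [hR0, Polynomial.natDegree_zero]
        norm_num
      · have h4 : R.degree < P.degree := by
          apply Polynomial.degree_sub_lt _ hPm.ne_zero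
          · rw [hPm.leadingCoeff, hχm.leadingCoeff]
          · rw [Polynomial.degree_eq_natDegree hPm.ne_zero,
              Polynomial.degree_eq_natDegree hχm.ne_zero, hPd, hχd]
        have h5 := Polynomial.natDegree_lt_natDegree hR0 h4
        omega
    have hsum : ∑ i : Fin 3, R.coeff i • (Ψ v) ^ (i : ℕ) = 0 := by
      rw [Polynomial.aeval_eq_sum_range' hRd, Finset.sum_range] at hRz
      exact hRz
    rw [Fintype.linearIndependent_iff] at h3
    have h6 := h3 (fun i => R.coeff i) (by
      rw [← hsum]
      apply Finset.sum_congr rfl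
      intro i _
      change R.coeff i • Ψ (v ^ (i : ℕ)) = _
      rw [map_pow]) 2
    have h7 : R.coeff 2 = 0 := h6
    rw [hR, Polynomial.coeff_sub, sub_eq_zero, hP, Polynomial.coeff_map] at h7
    have h8 := Matrix.trace_eq_neg_charpoly_coeff (Ψ v)
    rw [Fintype.card_fin, hτ] at h8
    apply inj
    rw [map_neg, h7, h8, neg_neg]

end Pool.Agent.Helper75.PX
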