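import Pool.Agent.Helper1.PX.B4
import Pool.Agent.Helper75.PX.Stmts6

set_option autoImplicit false

universe u

namespace Pool.Agent.Helper75.PX

theorem B4b_dbl {K A : Type u} [Field K] [Ring A] [Algebra K A] (h2 : (2 : K) = 0) (x : A) :
    x + x = 0 := by
  rw [← two_smul K x, h2, zero_smul]

/-- `β` is a unit -/
theorem B4b_uβ {K A : Type u} [Field K] [Ring A] [Algebra K A] {β : A} {b : K} (hb : b ≠ 0)
    (h : β * β = β + algebraMap K A b) : IsUnit β := by
  have e1 : β * (β - 1) = algebraMap K A b := by rw [mul_sub, mul_one, h]; abel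
  have e2 : (β - 1) * β = algebraMap K A b := by rw [sub_mul, one_mul, h]; abel
  refine ⟨⟨β, b⁻¹ • (β - 1), ?_, ?_⟩, rfl⟩
  · rw [mul_smul_comm, e1, Algebra.smul_def, ← map_mul, inv_mul_cancel₀ hb, map_one]
  · rw [smul_mul_assoc, e2, Algebra.smul_def, ← map_mul, inv_mul_cancel₀ hb, map_one]

/-- `z` is a unit if its square is a nonzero multiple of a unit -/
theorem B4b_uz {K A : Type u} [Field K] [Ring A] [Algebra K A] {β z : A} {p : K} (hp : p ≠ 0)
    (hβ : IsUnit β) (h : z * z = p • β) : IsUnit z := by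
  have h1 : IsUnit (z ^ 2) := by
    rw [pow_two, h, Algebra.smul_def]
    exact ((isUnit_iff_ne_zero.mpr hp).map (algebraMap K A)).mul hβ
  exact (isUnit_pow_iff two_ne_zero).mp h1

/-- the anticommutator -/
theorem B4b_step {K A : Type u} [Field K] [Ring A] [Algebra K A] (h2 : (2 : K) = 0)
    {α z P Q : A} (hP : α * P = P * α) (hQ : α * Q = Q * α) (hz : z * α = (α + 1) * z)
    (uz : IsUnit z) (h : P + Q * z = 0) : P = 0 ∧ Q = 0 := by
  have e1 : α * (P + Q * z) + (P + Q * z) * α = Q * z := by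
    have t1 : Q * z * α = Q * α * z + Q * z := by
      rw [mul_assoc, hz, add_mul, one_mul, mul_add, mul_assoc]
    have t2 : α * (Q * z) = Q * α * z := by rw [← mul_assoc, hQ]
    rw [mul_add, add_mul, t1, t2, hP]
    have d1 := B4b_dbl h2 (P * α)
    have d2 := B4b_dbl h2 (Q * α * z)
    calc P * α + Q * α * z + (P * α + (Q * α * z + Q * z))
        = (P * α + P * α) + (Q * α * z + Q * α * z) + Q * z := by abel
      _ = Q * z := by rw [d1, d2, zero_add, zero_add]
  rw [h, mul_zero, zero_mul, add_zero] at e1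
  have hQ0 : Q = 0 := by
    have : Q * z = 0 * z := by rw [← e1, zero_mul]
    exact uz.mul_right_cancel this
  refine ⟨?_, hQ0⟩
  rw [hQ0, zero_mul, add_zero] at h
  exact h

theorem st_B4b (hI : ST_I4b.{u}) : ST_B4b.{u} := by
  intro K A _ _ _ _ α β z w a b p r v h2 h
  rw [Fintype.linearIndependent_iff]
  intro g hg
  rw [B4_sum] at hg
  have ca : ∀ k l, α * B4_Y α β g k l = B4_Y α β g k l * α := fun k l => B4_comm_a h.hab _
  have cb : ∀ k l, β * B4_Y α β g k l = B4_Y α β g k l * β := fun k l => B4_comm_b h.hab _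
  have uα : IsUnit α := B4b_uβ h.a0 h.haa
  have uβ : IsUnit β := B4b_uβ h.b0 h.hbb
  have uz : IsUnit z := B4b_uz h.p0 uβ h.hzz
  have uw : IsUnit w := B4b_uz h.r0 uα h.hww
  set Y00 := B4_Y α β g 0 0 with h00
  set Y01 := B4_Y α β g 0 1 with h01
  set Y10 := B4_Y α β g 1 0 with h10
  set Y11 := B4_Y α β g 1 1 with h11
  have hg' : (Y00 + Y10 * w) + (Y01 + Y11 * w) * z = 0 := by
    rw [← hg, add_mul, mul_assoc Y11 w z]
    abel
  have cw : ∀ P Q : A, α * P = P * α → α * Q = Q * α → α * (P + Q * w) = (P + Q * w) * α := by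
    intro P Q hP hQ
    rw [mul_add, add_mul, hP, mul_assoc Q w α, h.hwa, ← mul_assoc, hQ, mul_assoc]
  obtain ⟨t1, t3⟩ := B4b_step h2 (cw Y00 Y10 (ca 0 0) (ca 1 0)) (cw Y01 Y11 (ca 0 1) (ca 1 1))
    h.hza uz hg'
  obtain ⟨y00, y10⟩ := B4b_step h2 (cb 0 0) (cb 1 0) h.hwb uw t1
  obtain ⟨y01, y11⟩ := B4b_step h2 (cb 0 1) (cb 1 1) h.hwb uw t3
  have all : ∀ k l, B4_Y α β g k l = 0 := by
    intro k l
    fin_cases k <;> fin_cases l
    · exact y00
    · exact y01
    · exact y10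
    · exact y11
  rintro ⟨i, j, k, l⟩
  have hz := hI K A α β z w a b p r v h2 h _ (all k l)
  fin_cases i <;> fin_cases j
  · exact congrFun hz 0
  · exact congrFun hz 2
  · exact congrFun hz 1
  · exact congrFun hz 3

end Pool.Agent.Helper75.PX
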